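import Pool.Agent.H4.US.Targets
import Pool.Agent.H77.CT.XK1

/-!
# QXK1: the numbers of invariant characters which extend (type level), classes of pairs
-/

set_option autoImplicit false

open scoped Classical

namespace Pool.Agent.H49.US

open AMc AMe AMt AMs AMr AMq Pool.Agent.H77.EA Pool.Agent.H77.CT

/-- QXK1 -/
theorem pf_QXK1 (hQMAP : T_QMAP) (hQCLG : T_QCLG) (hQIN : T_QIN) (hQFT : T_QFT)
    (hQXK : T_QXK) : T_QXK1 := by
  have H : HypF := All.fHypG.toHypF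
  intro ℓ _ 𝔪 hm hl 𝓠 hcl hAM Γ G N Q _ _ _ _ _ _ _ _ i j s X γ n hi D E χ ψ hBP hGD hdat hX hγ
  obtain ⟨F, _, π, hπ, rfl, _⟩ := exists_field ℓ 𝔪 hm hl
  have hj := hBP.inj
  have hij : Function.Injective (i.comp j) := hi.comp hj
  have hr : (i.comp j).range =
      i.range ⊓ Subgroup.normalizer ((D.map i : Subgroup Γ) : Set Γ) := by
    rw [MonoidHom.range_comp, hBP.rng]
    exact (H.K2 G Γ i hi (RingHom.ker π) ℓ χ D).2.2.2
  have hE : E.map (i.comp j) = D.map i := by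
    rw [← Subgroup.map_map, hBP.map]
  have h1 : extj i χ ∈ IrrS i.range := ((H.K1 G Γ i hi).2.1 χ).1 hBP.irr
  have h2 : extj (i.comp j) ψ ∈
      IrrS (i.range ⊓ Subgroup.normalizer ((D.map i : Subgroup Γ) : Set Γ)) := by
    rw [← hr]; exact ((H.K1 _ Γ _ hij).2.1 ψ).1 hBP.irr'
  have hdef : DefH ℓ i.range (lam π (extj i χ)) (D.map i) :=
    ((H.B9 F π hπ ℓ Γ i.range _ h1).2.1 (D.map i)).1
      ((H.K2 G Γ i hi (RingHom.ker π) ℓ χ D).1.1 hBP.dfc)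
  have hDp : IsPGroup ℓ D := hBP.dfc.1
  have hcor : Cor π i.range (D.map i) (extj i χ) (extj (i.comp j) ψ) :=
    (H.B8 F π hπ ℓ Γ i.range (D.map i) (hDp.map i) (Subgroup.map_le_range i D) _ h1 _ h2).1
      (((H.K2 G Γ i hi (RingHom.ker π) ℓ χ D).2.2.1 N j hj ψ).1 hBP.cor)
  have hnmX : ∀ x ∈ X, Nm x i.range := by
    intro x hx g
    constructor
    · intro h
      have := hdat.lp.nor x⁻¹ (X.inv_mem hx) _ h
      have e : x⁻¹ * (x * g * x⁻¹) * x⁻¹⁻¹ = g := by group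
      rwa [e] at this
    · exact hdat.lp.nor x hx g
  have hbl' : Blk π i.range (extj i χ) (cj γ (extj i χ)) :=
    blk_of_conj hπ H ℓ hi hdat.nmK hBP.irr hγ
  have hsta : Sta π X i.range (extj i χ) := fun x hx =>
    blk_of_conj hπ H ℓ hi (hnmX x hx) hBP.irr (hX x hx)
  have hClg : Clg ℓ (fun N P : Subgroup Γ => QK 𝓠 N P) := hQCLG ℓ 𝓠 hcl Γ
  have hEq : ∀ m, Eqv2 (Γ := Γ) π ℓ (fun N P => QK 𝓠 N P) m := fun m =>
    hQIN F π hπ ℓ Γ (fun N P => QK 𝓠 N P) hClg (hQFT F π hπ ℓ 𝓠 hcl hAM Γ) m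
  have hQK : QK 𝓠 i.range (D.map i) := (((hQMAP ℓ 𝓠 hcl).2 G Γ i hi).1 D).1 hGD
  have key := hQXK F π hπ ℓ Γ Q s X i.range (D.map i) γ n hdat (fun N P => QK 𝓠 N P) hClg hEq
    hQK _ h1 hdef _ h2 hcor hbl' hsta
  -- the local side
  set Nr : Subgroup Γ := Subgroup.normalizer ((D.map i : Subgroup Γ) : Set Γ) with hNr
  have hnN : ∀ x ∈ Nr, Nm x Nr := by
    intro x hx g
    constructor
    · intro h
      have h3 := Nr.mul_mem (Nr.mul_mem (Nr.inv_mem hx) h) hx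
      have e : x⁻¹ * (x * g * x⁻¹) * x = g := by group
      rwa [e] at h3
    · intro h
      exact Nr.mul_mem (Nr.mul_mem hx h) (Nr.inv_mem hx)
  have hnm' : ∀ x : Γ, Nm x i.range → x ∈ Nr → Nm x (i.comp j).range := by
    intro x hx hx' g
    rw [hr]
    constructor
    · rintro ⟨h3, h4⟩
      exact ⟨(hx g).1 h3, (hnN x hx' g).1 h4⟩
    · rintro ⟨h3, h4⟩
      exact ⟨(hx g).2 h3, (hnN x hx' g).2 h4⟩
  rw [card_ext hπ H hi X γ hnmX hdat.nmK hBP.irr D, key]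
  have hfin := card_ext hπ H hij (X ⊓ Nr) γ
    (fun x hx => hnm' x (hnmX x hx.1) hx.2) (hnm' γ hdat.nmK hdat.nmP) hBP.irr' E
  rw [hr, hE] at hfin
  rw [← hfin]
  rfl

end Pool.Agent.H49.US
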